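import Mathlib

set_option autoImplicit false

/-!
A run of consecutive additions of the Recaman sequence which begins after step `m` has at most
`3 + 4 m ^ (3 / 4)` steps.
-/

namespace Pool.Agent.Results.MP_a2345a_nt.DirectRuns

/-- The two kinds of steps. -/
theorem step (a : ℕ → ℕ)
    (h : ∀ n : ℕ, a (n + 1) =
      if n + 1 < a n ∧ a n - (n + 1) ∉ Finset.image a (Finset.range (n + 1))
      then a n - (n + 1) else a n + (n + 1)) (n : ℕ) :
    ((a (n + 1) : ℤ) = a n + (n + 1)) ∨ ((a (n + 1) : ℤ) = a n - (n + 1)) := by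
  have hn := h n
  split_ifs at hn with hc
  · right
    obtain ⟨h1, -⟩ := hc
    omega
  · left
    omega

/-- An addition from a term above `n + 2` is only made when the difference occurred before. -/
theorem blocked (a : ℕ → ℕ)
    (h : ∀ n : ℕ, a (n + 1) =
      if n + 1 < a n ∧ a n - (n + 1) ∉ Finset.image a (Finset.range (n + 1))
      then a n - (n + 1) else a n + (n + 1)) (n : ℕ)
    (hup : a (n + 1) = a n + (n + 1)) (hbig : n + 1 < a n) :
    ∃ j ≤ n, a j + (n + 1) = a n := by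
  have hn := h n
  split_ifs at hn with hc
  · omega
  · rw [not_and, not_not] at hc
    obtain ⟨j, hj, hja⟩ := Finset.mem_image.1 (hc hbig)
    exact ⟨j, by have := Finset.mem_range.1 hj; omega, by omega⟩

/-- The displacement between the times `t` and `t + p`. -/
theorem disp (a : ℕ → ℕ)
    (h : ∀ n : ℕ, a (n + 1) =
      if n + 1 < a n ∧ a n - (n + 1) ∉ Finset.image a (Finset.range (n + 1))
      then a n - (n + 1) else a n + (n + 1)) (t p : ℕ) :
    ∃ q c : ℤ, (a (t + p) : ℤ) - a t = q * t + c ∧ |q| ≤ p ∧ 2 * |c| ≤ p * (p + 1) ∧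
      |(a (t + p) : ℤ) - a t| ≤ p * (t + p) := by
  induction p with
  | zero => exact ⟨0, 0, by simp, by simp, by simp, by simp⟩
  | succ p ih =>
    obtain ⟨q, c, h1, h2, h3, h4⟩ := ih
    rcases step a h (t + p) with hs | hs
    · refine ⟨q + 1, c + (p + 1), ?_, ?_, ?_, ?_⟩
      · have : t + (p + 1) = t + p + 1 := by ring
        rw [this, hs]
        push_cast
        linarith
      · push_cast
        rw [abs_le] at h2 ⊢
        constructor <;> linarith [h2.1, h2.2]
      · push_cast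
        have := abs_add_le c ((p : ℤ) + 1)
        rw [abs_of_nonneg (show (0 : ℤ) ≤ (p : ℤ) + 1 by positivity)] at this
        nlinarith
      · have h5 : t + (p + 1) = t + p + 1 := by ring
        rw [h5, hs]
        push_cast
        rw [abs_le] at h4 ⊢
        constructor <;> nlinarith [h4.1, h4.2, (Nat.cast_nonneg t : (0 : ℤ) ≤ t),
          (Nat.cast_nonneg p : (0 : ℤ) ≤ p)]
    · refine ⟨q - 1, c - (p + 1), ?_, ?_, ?_, ?_⟩
      · have : t + (p + 1) = t + p + 1 := by ring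
        rw [this, hs]
        push_cast
        linarith
      · push_cast
        rw [abs_le] at h2 ⊢
        constructor <;> linarith [h2.1, h2.2]
      · push_cast
        have := abs_sub c ((p : ℤ) + 1)
        rw [abs_of_nonneg (show (0 : ℤ) ≤ (p : ℤ) + 1 by positivity)] at this
        nlinarith
      · have h5 : t + (p + 1) = t + p + 1 := by ring
        rw [h5, hs]
        push_cast
        rw [abs_le] at h4 ⊢
        constructor <;> nlinarith [h4.1, h4.2, (Nat.cast_nonneg t : (0 : ℤ) ≤ t),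
          (Nat.cast_nonneg p : (0 : ℤ) ≤ p)]

/-- The terms of a run of additions. -/
theorem run_eq (a : ℕ → ℕ) (m r : ℕ)
    (hr : ∀ j < r, a (m + j + 1) = a (m + j) + (m + j + 1)) (i d : ℕ) (hd : i + d ≤ r) :
    2 * ((a (m + (i + d)) : ℤ) - a (m + i)) = d * (2 * m + 2 * i + d + 1) := by
  induction d with
  | zero => simp
  | succ d ih =>
    have h1 := ih (by omega)
    have h2 := hr (i + d) (by omega)
    have h3 : m + (i + (d + 1)) = m + (i + d) + 1 := by ring
    rw [h3, h2]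
    push_cast at h1 ⊢
    linarith

/-- The number below a term of the run is an old term. -/
theorem old (a : ℕ → ℕ) (h0 : a 0 = 0)
    (h : ∀ n : ℕ, a (n + 1) =
      if n + 1 < a n ∧ a n - (n + 1) ∉ Finset.image a (Finset.range (n + 1))
      then a n - (n + 1) else a n + (n + 1)) (m r : ℕ)
    (hr : ∀ j < r, a (m + j + 1) = a (m + j) + (m + j + 1)) (i : ℕ) (hi : 1 ≤ i)
    (hir : i + 2 ≤ r) : ∃ t ≤ m, a t + 1 = a (m + i) := by
  have h1 := hr i (by omega)
  have h2 := hr (i + 1) (by omega)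
  have h3 := hr (i - 1) (by omega)
  have e1 : m + (i - 1) + 1 = m + i := by omega
  rw [e1] at h3
  have e2 : m + (i + 1) = m + i + 1 := by ring
  rw [e2] at h2
  by_cases hb : 1 < a (m + i)
  · obtain ⟨j, hj, hja⟩ := blocked a h (m + i + 1) h2 (by omega)
    have hja' : a j + 1 = a (m + i) := by omega
    refine ⟨j, ?_, hja'⟩
    by_contra hjm
    obtain ⟨k, rfl⟩ : ∃ k, j = m + k := ⟨j - m, by omega⟩
    rcases lt_trichotomy k i with hk | hk | hk
    · have h4 := run_eq a m r hr k (i - 1 - k) (by omega)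
      have e3 : k + (i - 1 - k) = i - 1 := by omega
      rw [e3] at h4
      have h5 : (0 : ℤ) ≤ ((i - 1 - k : ℕ) : ℤ) * (2 * m + 2 * k + ((i - 1 - k : ℕ) : ℤ) + 1) := by
        positivity
      have h6 : (a (m + k) : ℤ) ≤ a (m + (i - 1)) := by linarith
      have h7 : a (m + k) ≤ a (m + (i - 1)) := by exact_mod_cast h6
      omega
    · subst hk
      omega
    · have hk1 : k = i + 1 := by omega
      subst hk1
      rw [e2] at hja'
      omega
  · refine ⟨0, by omega, ?_⟩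
    rw [h0]
    omega

/-- The arithmetic of two old places. -/
theorem ar (t m i p P d Q u : ℤ) (ht : 0 ≤ t) (htm : t ≤ m) (hi : 1 ≤ i) (hd : 1 ≤ d)
    (hpP : p ^ 2 ≤ P ^ 2) (hPm : P ^ 2 ≤ m) (hu : |u| ≤ 2 * p ^ 2)
    (h : 2 * (Q * t) = 2 * (d * (m + i)) + u) : d ≤ Q ∧ |Q * t - d * (m + i)| ≤ P ^ 2 := by
  have hu' := abs_le.1 hu
  constructor
  · by_contra hcon
    push Not at hcon
    have h1 : Q * t ≤ (d - 1) * t := mul_le_mul_of_nonneg_right (by linarith) ht
    have h2 : (d - 1) * t ≤ (d - 1) * m := mul_le_mul_of_nonneg_left htm (by linarith)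
    have h3 : d * (m + i) = (d - 1) * m + m + d * i := by ring
    have h4 : 1 * 1 ≤ d * i := mul_le_mul hd hi (by norm_num) (by linarith)
    rw [h3] at h
    linarith [hu'.1]
  · rw [abs_le]
    constructor
    · linarith [hu'.1]
    · linarith [hu'.2]

/-- A displacement of at least `d` places takes more than `d` steps. -/
theorem ar2 (t m i p d x : ℤ) (htp : t + p ≤ m) (hp : 1 ≤ p) (hi : 0 ≤ i) (hd : 1 ≤ d)
    (hm : 0 ≤ m) (h4 : x ≤ p * (t + p)) (h6 : 2 * x = d * (2 * m + 2 * i + d + 1)) :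
    d + 1 ≤ p := by
  by_contra hcon
  push Not at hcon
  have h7 : p ≤ d := by linarith
  have h1 : p * (t + p) ≤ p * m := mul_le_mul_of_nonneg_left htp (by linarith)
  have h2 : p * (2 * m + 1) ≤ d * (2 * m + 2 * i + d + 1) :=
    mul_le_mul h7 (by linarith) (by linarith) (by linarith)
  have h3 : p * (2 * m + 1) = 2 * (p * m) + p := by ring
  linarith

/-- Two old places at the times `t` and `t + p`. -/
theorem pair (a : ℕ → ℕ)
    (h : ∀ n : ℕ, a (n + 1) =
      if n + 1 < a n ∧ a n - (n + 1) ∉ Finset.image a (Finset.range (n + 1))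
      then a n - (n + 1) else a n + (n + 1)) (m r : ℕ)
    (hr : ∀ j < r, a (m + j + 1) = a (m + j) + (m + j + 1)) (i i' t p : ℕ) (hi : 1 ≤ i)
    (hir : i ≤ r) (hir' : i' ≤ r) (hne : i ≠ i') (hp : 1 ≤ p)
    (htp : t + p ≤ m) (h1 : a t + 1 = a (m + i)) (h2 : a (t + p) + 1 = a (m + i')) :
    |(i' : ℤ) - i| + 1 ≤ p ∧ ∀ P : ℕ, p ≤ P → P ^ 2 ≤ m → ∃ F G : ℕ,
      F ≤ G ∧ 1 ≤ F ∧ G ≤ P ∧ |(G : ℤ) * t - F * (m + i)| ≤ (P : ℤ) ^ 2 := by
  obtain ⟨q, c, e1, e2, e3, e4⟩ := disp a h t p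
  have h1' : (a t : ℤ) + 1 = a (m + i) := by exact_mod_cast h1
  have h2' : (a (t + p) : ℤ) + 1 = a (m + i') := by exact_mod_cast h2
  have hp' : (1 : ℤ) ≤ p := by exact_mod_cast hp
  have htp' : (t : ℤ) + p ≤ m := by exact_mod_cast htp
  have ht0 : (0 : ℤ) ≤ t := by positivity
  have hi0 : (1 : ℤ) ≤ i := by exact_mod_cast hi
  have hm0 : (0 : ℤ) ≤ m := by positivity
  rw [abs_le] at e2 e4
  have hc1 := neg_abs_le c
  have hc2 := le_abs_self c
  rcases lt_or_gt_of_ne hne with hlt | hgt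
  · obtain ⟨d, rfl⟩ : ∃ d, i' = i + d := ⟨i' - i, by omega⟩
    have hd1 : (1 : ℤ) ≤ d := by
      have : 1 ≤ d := by omega
      exact_mod_cast this
    have h5 := run_eq a m r hr i d (by omega)
    have h6 : 2 * ((a (t + p) : ℤ) - a t) = d * (2 * m + 2 * i + d + 1) := by
      rw [← h5]; linarith
    have hdp : (d : ℤ) + 1 ≤ p :=
      ar2 t m i p d _ htp' hp' (by linarith) hd1 hm0 e4.2 h6
    refine ⟨?_, ?_⟩
    · have : ((i + d : ℕ) : ℤ) - i = d := by push_cast; ring
      rw [this, abs_of_nonneg (by linarith)]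
      exact hdp
    · intro P hpP hPm
      have hpP' : (p : ℤ) ≤ P := by exact_mod_cast hpP
      have hPm' : (P : ℤ) ^ 2 ≤ m := by exact_mod_cast hPm
      have hpp : (p : ℤ) ^ 2 ≤ (P : ℤ) ^ 2 := pow_le_pow_left₀ (by linarith) hpP' 2
      have hdd : (d : ℤ) * (d + 1) ≤ (p - 1) * p :=
        mul_le_mul (by linarith) (by linarith) (by linarith) (by linarith)
      have hd0 : (0 : ℤ) ≤ d * (d + 1) := by positivity
      have h8 : 2 * (q * t) = 2 * (d * ((m : ℤ) + i)) + (d * (d + 1) - 2 * c) := by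
        rw [e1] at h6
        linarith
      obtain ⟨hqd, h9⟩ := ar t m i p P d q (d * (d + 1) - 2 * c) ht0 (by linarith) hi0 hd1
        hpp hPm' (by rw [abs_le]; constructor <;> linarith) h8
      obtain ⟨G, rfl⟩ : ∃ G : ℕ, q = G := ⟨q.toNat, by omega⟩
      refine ⟨d, G, by exact_mod_cast hqd, by exact_mod_cast hd1, ?_, h9⟩
      have : (G : ℤ) ≤ P := by linarith [e2.2]
      exact_mod_cast this
  · obtain ⟨d, rfl⟩ : ∃ d, i = i' + d := ⟨i - i', by omega⟩
    have hd1 : (1 : ℤ) ≤ d := by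
      have : 1 ≤ d := by omega
      exact_mod_cast this
    have h5 := run_eq a m r hr i' d (by omega)
    have h6 : 2 * (-((a (t + p) : ℤ) - a t)) = d * (2 * m + 2 * i' + d + 1) := by
      rw [← h5]; linarith
    have hdp : (d : ℤ) + 1 ≤ p :=
      ar2 t m i' p d _ htp' hp' (by positivity) hd1 hm0 (by linarith [e4.1]) h6
    refine ⟨?_, ?_⟩
    · have : (i' : ℤ) - ((i' + d : ℕ) : ℤ) = -d := by push_cast; ring
      rw [this, abs_neg, abs_of_nonneg (by linarith)]
      exact hdp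
    · intro P hpP hPm
      have hpP' : (p : ℤ) ≤ P := by exact_mod_cast hpP
      have hPm' : (P : ℤ) ^ 2 ≤ m := by exact_mod_cast hPm
      have hpp : (p : ℤ) ^ 2 ≤ (P : ℤ) ^ 2 := pow_le_pow_left₀ (by linarith) hpP' 2
      have hdd : (d : ℤ) * (d + 1) ≤ (p - 1) * p :=
        mul_le_mul (by linarith) (by linarith) (by linarith) (by linarith)
      have hd0 : (0 : ℤ) ≤ d * (d - 1) := mul_nonneg (by linarith) (by linarith)
      have h8 : 2 * (-q * t) = 2 * (d * ((m : ℤ) + ((i' + d : ℕ) : ℤ))) +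
          (2 * c - d * (d - 1)) := by
        rw [e1] at h6
        push_cast
        linarith
      obtain ⟨hqd, h9⟩ := ar t m ((i' + d : ℕ) : ℤ) p P d (-q) (2 * c - d * (d - 1)) ht0
        (by linarith) hi0 hd1 hpp hPm' (by rw [abs_le]; constructor <;> linarith) h8
      obtain ⟨G, hG⟩ : ∃ G : ℕ, -q = G := ⟨(-q).toNat, by omega⟩
      rw [hG] at h9 hqd
      refine ⟨d, G, by exact_mod_cast hqd, by exact_mod_cast hd1, ?_, h9⟩
      have : (G : ℤ) ≤ P := by linarith [e2.1]
      exact_mod_cast this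

/-- A set on which an integer function grows in steps of at least `G` and stays in `[-B, B]`. -/
theorem fib (S : Finset ℕ) (Φ : ℕ → ℤ) (G B : ℕ) (hG : 1 ≤ G) (hb : ∀ l ∈ S, |Φ l| ≤ B)
    (hg : ∀ l ∈ S, ∀ l' ∈ S, l < l' → Φ l + G ≤ Φ l') : S.card ≤ 2 * B / G + 1 := by
  have hG' : (0 : ℤ) < G := by exact_mod_cast hG
  have h1 : S.card ≤ (Finset.range (2 * B / G + 1)).card := by
    refine Finset.card_le_card_of_injOn (fun l => ((Φ l + B) / G).toNat) ?_ ?_
    · intro l hl
      have h2 := abs_le.1 (hb l hl)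
      have h3 : (Φ l + B) / G ≤ (2 * B) / G := Int.ediv_le_ediv hG' (by linarith)
      have h4 : 0 ≤ (Φ l + B) / G := Int.ediv_nonneg (by linarith) hG'.le
      have h5 : ((2 * B / G : ℕ) : ℤ) = (2 * (B : ℤ)) / G := by push_cast; rfl
      simp only [Finset.coe_range, Set.mem_Iio]
      omega
    · have key : ∀ l ∈ S, ∀ l' ∈ S, l < l' →
          ((Φ l + B) / G).toNat ≠ ((Φ l' + B) / G).toNat := by
        intro l hl l' hl' hll
        have h2 := abs_le.1 (hb l hl)
        have h3 := hg l hl l' hl' hll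
        have h4 : 0 ≤ (Φ l + B) / G := Int.ediv_nonneg (by linarith) hG'.le
        have h5 : (Φ l + B) / G + 1 ≤ (Φ l' + B) / G := by
          have : (Φ l + B) / G + 1 = (Φ l + B + 1 * G) / G := by
            rw [Int.add_mul_ediv_right _ _ hG'.ne']
          rw [this]
          exact Int.ediv_le_ediv hG' (by linarith)
        omega
      intro l hl l' hl' hll
      by_contra hne
      rcases lt_or_gt_of_ne hne with h2 | h2
      · exact key l hl l' hl' h2 hll
      · exact key l' hl' l hl h2 hll.symm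
  simpa using h1

/-- The count of the old places, abstract form. -/
theorem count (R m P : ℕ) (s i : ℕ → ℕ) (hR : 1 ≤ R) (hm : ∀ l < R, s l ≤ m)
    (hs : ∀ l, l + 1 < R → s l < s (l + 1))
    (he : ∀ l, l + 1 < R → |(i (l + 1) : ℤ) - i l| + 1 ≤ (s (l + 1) : ℤ) - s l)
    (hsh : ∀ l, l + 1 < R → s (l + 1) ≤ s l + P → ∃ F G : ℕ,
      F ≤ G ∧ 1 ≤ F ∧ G ≤ P ∧ |(G : ℤ) * s l - F * (m + i l)| ≤ (P : ℤ) ^ 2) :
    (R : ℤ) ≤ 1 + 3 * (P : ℤ) ^ 3 + m / (P + 1) := by
  classical
  -- growth of the phase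
  have grow : ∀ F G : ℕ, F ≤ G → ∀ l d : ℕ, l + d + 1 < R →
      ((G : ℤ) * s l - F * (m + i l)) + G ≤
        (G : ℤ) * s (l + d + 1) - F * (m + i (l + d + 1)) := by
    intro F G hFG l d
    have one : ∀ l, l + 1 < R → ((G : ℤ) * s l - F * (m + i l)) + G ≤
        (G : ℤ) * s (l + 1) - F * (m + i (l + 1)) := by
      intro l hl
      have h1 := he l hl
      have h2 := le_abs_self ((i (l + 1) : ℤ) - i l)
      have h3 : (F : ℤ) ≤ G := by exact_mod_cast hFG
      have h4 : (0 : ℤ) ≤ F := by positivity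
      have h5 : (0 : ℤ) ≤ |(i (l + 1) : ℤ) - i l| := abs_nonneg _
      have h6 : (F : ℤ) * ((i (l + 1) : ℤ) - i l) ≤ F * |(i (l + 1) : ℤ) - i l| :=
        mul_le_mul_of_nonneg_left h2 h4
      have h7 : (F : ℤ) * |(i (l + 1) : ℤ) - i l| ≤ G * |(i (l + 1) : ℤ) - i l| :=
        mul_le_mul_of_nonneg_right h3 h5
      have h8 : (G : ℤ) * (|(i (l + 1) : ℤ) - i l| + 1) ≤ G * ((s (l + 1) : ℤ) - s l) :=
        mul_le_mul_of_nonneg_left h1 (by positivity)
      nlinarith
    induction d with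
    | zero => intro hl; exact one l hl
    | succ d ih =>
      intro hl
      have h1 := ih (by omega)
      have h2 := one (l + d + 1) (by omega)
      have h3 : l + (d + 1) + 1 = l + d + 1 + 1 := by ring
      rw [h3]
      have h4 : (0 : ℤ) ≤ G := by positivity
      linarith
  set L := Finset.range (R - 1) with hL
  set Sh := L.filter (fun l => s (l + 1) ≤ s l + P) with hSh
  set Lo := L.filter (fun l => ¬ s (l + 1) ≤ s l + P) with hLo
  have hsplit : Sh.card + Lo.card = R - 1 := by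
    have := Finset.card_filter_add_card_filter_not (s := L) (fun l => s (l + 1) ≤ s l + P)
    rw [Finset.card_range] at this
    exact this
  -- long gaps
  have hlong : (Lo.card : ℤ) * (P + 1) ≤ m := by
    have h1 : ∑ l ∈ L, ((s (l + 1) : ℤ) - s l) = s (R - 1) - s 0 :=
      Finset.sum_range_sub (fun l => (s l : ℤ)) (R - 1)
    have h2 : ∑ l ∈ Lo, ((s (l + 1) : ℤ) - s l) ≤ ∑ l ∈ L, ((s (l + 1) : ℤ) - s l) := by
      refine Finset.sum_le_sum_of_subset_of_nonneg (Finset.filter_subset _ _) ?_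
      intro l hl _
      have := hs l (by have := Finset.mem_range.1 hl; omega)
      omega
    have h3 : (Lo.card : ℤ) * (P + 1) ≤ ∑ l ∈ Lo, ((s (l + 1) : ℤ) - s l) := by
      have : ∑ l ∈ Lo, ((P : ℤ) + 1) ≤ ∑ l ∈ Lo, ((s (l + 1) : ℤ) - s l) := by
        refine Finset.sum_le_sum ?_
        intro l hl
        have := (Finset.mem_filter.1 hl).2
        omega
      rwa [Finset.sum_const, nsmul_eq_mul] at this
    have h4 := hm (R - 1) (by omega)
    omega
  -- short gaps
  have hshort : Sh.card ≤ P * (2 * P ^ 2 + P) := by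
    have hsub : Sh ⊆ (Finset.Icc 1 P).biUnion (fun G => (Finset.Icc 1 G).biUnion (fun F =>
        Sh.filter (fun l => |(G : ℤ) * s l - F * (m + i l)| ≤ (P : ℤ) ^ 2))) := by
      intro l hl
      have hl1 := Finset.mem_filter.1 hl
      have hl2 := Finset.mem_range.1 hl1.1
      obtain ⟨F, G, h1, h2, h3, h4⟩ := hsh l (by omega) hl1.2
      rw [Finset.mem_biUnion]
      refine ⟨G, Finset.mem_Icc.2 ⟨by omega, h3⟩, ?_⟩
      rw [Finset.mem_biUnion]
      exact ⟨F, Finset.mem_Icc.2 ⟨h2, h1⟩, Finset.mem_filter.2 ⟨hl, h4⟩⟩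
    refine (Finset.card_le_card hsub).trans (Finset.card_biUnion_le.trans ?_)
    have h1 : ∀ G ∈ Finset.Icc 1 P, ((Finset.Icc 1 G).biUnion (fun F =>
        Sh.filter (fun l => |(G : ℤ) * s l - F * (m + i l)| ≤ (P : ℤ) ^ 2))).card ≤
          2 * P ^ 2 + P := by
      intro G hG
      have hG' := Finset.mem_Icc.1 hG
      refine Finset.card_biUnion_le.trans ?_
      have h2 : ∀ F ∈ Finset.Icc 1 G,
          (Sh.filter (fun l => |(G : ℤ) * s l - F * (m + i l)| ≤ (P : ℤ) ^ 2)).card ≤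
            2 * P ^ 2 / G + 1 := by
        intro F hF
        have hF' := Finset.mem_Icc.1 hF
        refine fib _ (fun l => (G : ℤ) * s l - F * (m + i l)) G (P ^ 2) hG'.1 ?_ ?_
        · intro l hl
          have := (Finset.mem_filter.1 hl).2
          push_cast
          exact this
        · intro l hl l' hl' hll
          have h3 := Finset.mem_range.1 (Finset.mem_filter.1 (Finset.mem_filter.1 hl').1).1
          obtain ⟨d, rfl⟩ : ∃ d, l' = l + d + 1 := ⟨l' - l - 1, by omega⟩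
          exact grow F G hF'.2 l d (by omega)
      refine (Finset.sum_le_sum h2).trans ?_
      rw [Finset.sum_const, Nat.card_Icc, smul_eq_mul, Nat.add_sub_cancel, mul_add, mul_one]
      have h3 : G * (2 * P ^ 2 / G) ≤ 2 * P ^ 2 := Nat.mul_div_le _ _
      omega
    refine (Finset.sum_le_sum h1).trans ?_
    rw [Finset.sum_const, Nat.card_Icc, smul_eq_mul, Nat.add_sub_cancel]
  have h1 : (Lo.card : ℤ) ≤ m / (P + 1) := by
    rw [Int.le_ediv_iff_mul_le (by positivity)]
    exact hlong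
  have h2 : (Sh.card : ℤ) ≤ P * (2 * P ^ 2 + P) := by exact_mod_cast hshort
  have h3 : (P : ℤ) * (2 * P ^ 2 + P) ≤ 3 * (P : ℤ) ^ 3 := by
    rcases Nat.eq_zero_or_pos P with h0 | h0
    · subst h0; simp
    · have : (1 : ℤ) ≤ P := by exact_mod_cast h0
      nlinarith [sq_nonneg (P : ℤ)]
  have h4 : (Sh.card : ℤ) + Lo.card = R - 1 := by
    have : ((R - 1 : ℕ) : ℤ) = R - 1 := by omega
    rw [← this, ← hsplit]; push_cast; ring
  linarith

/-- The count for a run of at least three additions. -/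
theorem places (a : ℕ → ℕ) (h0 : a 0 = 0)
    (h : ∀ n : ℕ, a (n + 1) =
      if n + 1 < a n ∧ a n - (n + 1) ∉ Finset.image a (Finset.range (n + 1))
      then a n - (n + 1) else a n + (n + 1)) (m r P : ℕ) (hr3 : 3 ≤ r) (hP : P ^ 2 ≤ m)
    (hr : ∀ j < r, a (m + j + 1) = a (m + j) + (m + j + 1)) :
    ((r - 2 : ℕ) : ℤ) ≤ 1 + 3 * (P : ℤ) ^ 3 + m / (P + 1) := by
  classical
  have hex : ∀ i, 1 ≤ i → i ≤ r - 2 → ∃ t, t ≤ m ∧ a t + 1 = a (m + i) := by
    intro i hi hir
    obtain ⟨t, h1, h2⟩ := old a h0 h m r hr i hi (by omega)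
    exact ⟨t, h1, h2⟩
  choose! τ hτm hτ using hex
  have hinj : ∀ i ∈ Finset.Icc 1 (r - 2), ∀ i' ∈ Finset.Icc 1 (r - 2), τ i = τ i' → i = i' := by
    have key : ∀ i i', 1 ≤ i → i < i' → i' ≤ r - 2 → τ i ≠ τ i' := by
      intro i i' hi hii hir heq
      have h1 := hτ i hi (by omega)
      have h2 := hτ i' (by omega) hir
      rw [heq] at h1
      obtain ⟨d, rfl⟩ : ∃ d, i' = i + d := ⟨i' - i, by omega⟩
      have h3 := run_eq a m r hr i d (by omega)
      have h4 : (a (m + (i + d)) : ℤ) = a (m + i) := by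
        rw [← h1, ← h2]
      rw [h4, sub_self, mul_zero] at h3
      have h5 : (0 : ℤ) < d * (2 * m + 2 * i + d + 1) := by
        have : (0 : ℤ) < d := by
          have : 0 < d := by omega
          exact_mod_cast this
        positivity
      omega
    intro i hi i' hi' heq
    have h1 := Finset.mem_Icc.1 hi
    have h2 := Finset.mem_Icc.1 hi'
    rcases lt_trichotomy i i' with h3 | h3 | h3
    · exact absurd heq (key i i' h1.1 h3 h2.2)
    · exact h3
    · exact absurd heq.symm (key i' i h2.1 h3 h1.2)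
  set T := (Finset.Icc 1 (r - 2)).image τ with hTdef
  have hT : T.card = r - 2 := by
    rw [hTdef, Finset.card_image_of_injOn hinj, Nat.card_Icc]
    omega
  have hidx : ∀ t, t ∈ T → ∃ i, 1 ≤ i ∧ i ≤ r - 2 ∧ τ i = t := by
    intro t ht
    obtain ⟨i, hi, hit⟩ := Finset.mem_image.1 ht
    exact ⟨i, (Finset.mem_Icc.1 hi).1, (Finset.mem_Icc.1 hi).2, hit⟩
  choose! idx hidx1 hidx2 hidx3 using hidx
  set s : ℕ → ℕ := fun l => if hl : l < r - 2 then T.orderEmbOfFin hT ⟨l, hl⟩ else 0 with hs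
  have hsT : ∀ l, l < r - 2 → s l ∈ T := by
    intro l hl
    rw [hs]
    simp only [hl, dif_pos]
    exact Finset.orderEmbOfFin_mem T hT ⟨l, hl⟩
  have hsm : ∀ l, l < r - 2 → s l ≤ m := by
    intro l hl
    have h1 := hsT l hl
    rw [← hidx3 _ h1]
    exact hτm _ (hidx1 _ h1) (hidx2 _ h1)
  have hslt : ∀ l, l + 1 < r - 2 → s l < s (l + 1) := by
    intro l hl
    have hl' : l < r - 2 := by omega
    rw [hs]
    simp only [hl, hl', dif_pos]
    refine (T.orderEmbOfFin hT).strictMono ?_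
    exact Fin.mk_lt_mk.2 (Nat.lt_succ_self l)
  have hpair : ∀ l, l + 1 < r - 2 →
      |(idx (s (l + 1)) : ℤ) - idx (s l)| + 1 ≤ ((s (l + 1) - s l : ℕ) : ℤ) ∧
      ∀ P : ℕ, s (l + 1) - s l ≤ P → P ^ 2 ≤ m → ∃ F G : ℕ,
        F ≤ G ∧ 1 ≤ F ∧ G ≤ P ∧
          |(G : ℤ) * s l - F * (m + idx (s l))| ≤ (P : ℤ) ^ 2 := by
    intro l hl
    have h1 := hsT l (by omega)
    have h2 := hsT (l + 1) hl
    have h3 := hslt l hl
    have h4 := hsm (l + 1) hl
    have e1 := hidx3 _ h1
    have e2 := hidx3 _ h2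
    have f1 := hτ _ (hidx1 _ h1) (hidx2 _ h1)
    have f2 := hτ _ (hidx1 _ h2) (hidx2 _ h2)
    rw [e1] at f1
    rw [e2] at f2
    have e3 : s l + (s (l + 1) - s l) = s (l + 1) := by omega
    have g1 := hidx2 _ h1
    have g2 := hidx2 _ h2
    refine pair a h m r hr (idx (s l)) (idx (s (l + 1))) (s l) (s (l + 1) - s l) (hidx1 _ h1)
      (by omega) (by omega) ?_ (by omega) (by omega) f1 (by rw [e3]; exact f2)
    intro heq
    rw [heq, e2] at e1
    omega
  refine count (r - 2) m P s (fun l => idx (s l)) (by omega) hsm hslt ?_ ?_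
  · intro l hl
    have h1 := (hpair l hl).1
    have h3 := hslt l hl
    have h4 : ((s (l + 1) - s l : ℕ) : ℤ) = (s (l + 1) : ℤ) - s l := by omega
    rw [← h4]
    exact h1
  · intro l hl hle
    exact (hpair l hl).2 P (by omega) hP

/-- For the Recaman sequence of the problem: if the steps `m + 1`, `m + 2`, up to `m + r` are all
additions, then `r` is at most `3 + 4 m ^ (3 / 4)`. -/
theorem result : ∀ a : ℕ → ℕ, a 0 = 0 →
    (∀ n : ℕ, a (n + 1) =
      if n + 1 < a n ∧ a n - (n + 1) ∉ Finset.image a (Finset.range (n + 1))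
      then a n - (n + 1) else a n + (n + 1)) →
    ∀ m r : ℕ, (∀ j < r, a (m + j + 1) = a (m + j) + (m + j + 1)) →
      (r : ℝ) ≤ 3 + 4 * (m : ℝ) ^ (3 / 4 : ℝ) := by
  intro a h0 h m r hr
  have hpos : (0 : ℝ) ≤ (m : ℝ) ^ (3 / 4 : ℝ) := by positivity
  by_cases hr3 : r < 3
  · have : (r : ℝ) ≤ 3 := by exact_mod_cast hr3.le
    linarith
  push Not at hr3
  set x : ℝ := (m : ℝ) ^ (1 / 4 : ℝ) with hx
  have hx0 : 0 ≤ x := by positivity
  have hx4 : x ^ 4 = m := by
    rw [hx, ← Real.rpow_natCast, ← Real.rpow_mul (by positivity)]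
    norm_num
  have hx3 : x ^ 3 = (m : ℝ) ^ (3 / 4 : ℝ) := by
    rw [hx, ← Real.rpow_natCast, ← Real.rpow_mul (by positivity)]
    norm_num
  set P : ℕ := ⌊x⌋₊ with hPdef
  have hP1 : (P : ℝ) ≤ x := Nat.floor_le hx0
  have hP2 : x < (P : ℝ) + 1 := Nat.lt_floor_add_one x
  have hP4 : P ^ 4 ≤ m := by
    have : (P : ℝ) ^ 4 ≤ m := by
      rw [← hx4]
      exact pow_le_pow_left₀ (by positivity) hP1 4
    exact_mod_cast this
  have hPm : P ^ 2 ≤ m := by
    refine le_trans ?_ hP4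
    rcases Nat.eq_zero_or_pos P with h1 | h1
    · rw [h1]; norm_num
    · exact Nat.pow_le_pow_right h1 (by norm_num)
  have h1 := places a h0 h m r P hr3 hPm hr
  have h2 : ((r - 2 : ℕ) : ℝ) ≤ 1 + 3 * (P : ℝ) ^ 3 + ((m / (P + 1) : ℤ) : ℝ) := by
    exact_mod_cast h1
  have h3 : (((m : ℤ) / (P + 1) : ℤ) : ℝ) ≤ (m : ℝ) / (P + 1) := by
    have h4 : (((m : ℤ) / (P + 1) : ℤ)) * ((P : ℤ) + 1) ≤ m :=
      Int.ediv_mul_le _ (by positivity)
    rw [le_div_iff₀ (by positivity)]
    exact_mod_cast h4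
  have h4 : (m : ℝ) / (P + 1) ≤ x ^ 3 := by
    rw [div_le_iff₀ (by positivity), ← hx4]
    have : x ^ 4 = x ^ 3 * x := by ring
    rw [this]
    exact mul_le_mul_of_nonneg_left hP2.le (by positivity)
  have h5 : (P : ℝ) ^ 3 ≤ x ^ 3 := pow_le_pow_left₀ (by positivity) hP1 3
  have h6 : ((r - 2 : ℕ) : ℝ) = r - 2 := by
    rw [Nat.cast_sub (by omega)]
    norm_num
  rw [h6] at h2
  rw [← hx3]
  linarith

end Pool.Agent.Results.MP_a2345a_nt.DirectRuns
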