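import Mathlib

set_option autoImplicit false

/-!
The Recaman sequence takes infinitely many values in every residue class modulo 3.
-/

namespace Pool.Agent.Results.MP_a2345a_nt.ModThree

/-- The two kinds of steps. -/
theorem step (a : ℕ → ℕ)
    (h : ∀ n : ℕ, a (n + 1) =
      if n + 1 < a n ∧ a n - (n + 1) ∉ Finset.image a (Finset.range (n + 1))
      then a n - (n + 1) else a n + (n + 1)) (n : ℕ) :
    a (n + 1) = a n + (n + 1) ∨
      (n + 1 < a n ∧ a (n + 1) + (n + 1) = a n ∧ ∀ j ≤ n, a j ≠ a (n + 1)) := by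
  have hn := h n
  split_ifs at hn with hc
  · right
    refine ⟨hc.1, by omega, ?_⟩
    intro j hj hja
    apply hc.2
    rw [← hn, ← hja]
    exact Finset.mem_image.2 ⟨j, Finset.mem_range.2 (by omega), rfl⟩
  · left
    exact hn

/-- An addition from a term above `n + 2` is only made when the difference occurred before. -/
theorem blocked (a : ℕ → ℕ)
    (h : ∀ n : ℕ, a (n + 1) =
      if n + 1 < a n ∧ a n - (n + 1) ∉ Finset.image a (Finset.range (n + 1))
      then a n - (n + 1) else a n + (n + 1)) (n : ℕ)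
    (hup : a (n + 1) = a n + (n + 1)) (hbig : n + 1 < a n) :
    ∃ j ≤ n, a j + (n + 1) = a n := by
  have hn := h n
  split_ifs at hn with hc
  · omega
  · rw [not_and, not_not] at hc
    obtain ⟨j, hj, hja⟩ := Finset.mem_image.1 (hc hbig)
    exact ⟨j, by have := Finset.mem_range.1 hj; omega, by omega⟩

/-- Downwards forever is impossible. -/
theorem noDown (a : ℕ → ℕ) (K : ℕ)
    (hD : ∀ k, K ≤ k → a (3 * k + 3) + (k + 1) ≤ a (3 * k)) : False := by
  have key : ∀ j, a (3 * (K + j)) + j ≤ a (3 * K) := by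
    intro j
    induction j with
    | zero => simp
    | succ j ih =>
      have h1 := hD (K + j) (by omega)
      have h2 : 3 * (K + (j + 1)) = 3 * (K + j) + 3 := by ring
      rw [h2]
      omega
  have := key (a (3 * K) + 1)
  omega

/-- Upwards forever at the indices that are not divisible by three is impossible. -/
theorem noUp (a : ℕ → ℕ)
    (h : ∀ n : ℕ, a (n + 1) =
      if n + 1 < a n ∧ a n - (n + 1) ∉ Finset.image a (Finset.range (n + 1))
      then a n - (n + 1) else a n + (n + 1)) (K : ℕ) (hK : 1 ≤ K)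
    (hU : ∀ k, K ≤ k → a (3 * k + 1) = a (3 * k) + (3 * k + 1) ∧
      a (3 * k + 2) = a (3 * k) + (6 * k + 3)) : False := by
  have hs : ∀ k, K ≤ k → a (3 * (k + 1)) = a (3 * k) + (9 * k + 6) ∨
      a (3 * (k + 1)) = a (3 * k) + 3 * k := by
    intro k hk
    have h2 := (hU k hk).2
    have h3 : 3 * (k + 1) = (3 * k + 2) + 1 := by ring
    rcases step a h (3 * k + 2) with h4 | ⟨_, h4, _⟩
    · left
      rw [h3]; omega
    · right
      rw [h3]; omega
  have hmono : ∀ i, K ≤ i → ∀ d, a (3 * i) + d ≤ a (3 * (i + d)) := by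
    intro i hi d
    induction d with
    | zero => simp
    | succ d ih =>
      have h2 : i + (d + 1) = (i + d) + 1 := by ring
      rw [h2]
      rcases hs (i + d) (by omega) with h3 | h3 <;> omega
  -- a bound for the old terms
  obtain ⟨B, hB⟩ : ∃ B, ∀ j ≤ 3 * K, a j ≤ B :=
    ⟨(Finset.range (3 * K + 1)).sup a, fun j hj =>
      Finset.le_sup (f := a) (Finset.mem_range.2 (by omega))⟩
  have hm : ∀ p q, K ≤ p → p ≤ q → a (3 * p) ≤ a (3 * q) := by
    intro p q hp hpq
    obtain ⟨d, rfl⟩ := Nat.exists_eq_add_of_le hpq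
    have := hmono p hp d
    omega
  -- a late index
  obtain ⟨k, hkK, hbig⟩ : ∃ k, K ≤ k ∧ B + 5 ≤ a (3 * k) :=
    ⟨K + (B + 5), by omega, by have := hmono K le_rfl (B + 5); omega⟩
  obtain ⟨h1, h2⟩ := hU k hkK
  obtain ⟨j, hj, hja⟩ := blocked a h (3 * k + 1)
    (by rw [h1]; show a (3 * k + 2) = _; omega) (by rw [h1]; omega)
  rw [h1] at hja
  have hja' : a j + 1 = a (3 * k) := by omega
  -- j is not old
  have hjK : 3 * K < j := by
    by_contra hc
    have := hB j (by omega)
    omega
  -- j = 3 * k + 1 is impossible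
  have hj1 : j ≠ 3 * k + 1 := by
    rintro rfl
    omega
  -- write j = 3 i + s
  obtain ⟨i, hi⟩ : ∃ i, j = 3 * i ∨ j = 3 * i + 1 ∨ j = 3 * i + 2 := ⟨j / 3, by omega⟩
  have hiK : K ≤ i := by omega
  rcases hi with rfl | rfl | rfl
  · -- j = 3 i
    have hik : i < k := by
      rcases Nat.lt_or_ge i k with h5 | h5
      · exact h5
      · have h6 : i = k := by omega
        subst h6
        omega
    have h3 := hm (i + 1) k (by omega) (by omega)
    rcases hs i hiK with h4 | h4 <;> omega
  · -- j = 3 i + 1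
    have hik : i < k := by omega
    have h3 := hm (i + 1) k (by omega) (by omega)
    have h5 := (hU i hiK).1
    rcases hs i hiK with h4 | h4
    · omega
    · rcases Nat.lt_or_ge (i + 1) k with h6 | h6
      · have h7 := hm (i + 2) k (by omega) (by omega)
        rcases hs (i + 1) (by omega) with h8 | h8
        · rw [show i + 1 + 1 = i + 2 by ring] at h8
          omega
        · rw [show i + 1 + 1 = i + 2 by ring] at h8
          omega
      · have h9 : k = i + 1 := by omega
        subst h9
        omega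
  · -- j = 3 i + 2
    have hik : i < k := by omega
    have h3 := hm (i + 1) k (by omega) (by omega)
    have h5 := (hU i hiK).2
    rcases hs i hiK with h4 | h4
    · omega
    · rcases Nat.lt_or_ge (i + 1) k with h6 | h6
      · have h7 := hm (i + 2) k (by omega) (by omega)
        rcases hs (i + 1) (by omega) with h8 | h8
        · rw [show i + 1 + 1 = i + 2 by ring] at h8
          omega
        · rw [show i + 1 + 1 = i + 2 by ring] at h8
          rcases Nat.lt_or_ge (i + 2) k with h10 | h10
          · have h11 := hm (i + 3) k (by omega) (by omega)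
            rcases hs (i + 2) (by omega) with h12 | h12
            · rw [show i + 2 + 1 = i + 3 by ring] at h12
              omega
            · rw [show i + 2 + 1 = i + 3 by ring] at h12
              omega
          · have h9 : k = i + 2 := by omega
            subst h9
            omega
      · have h9 : k = i + 1 := by omega
        subst h9
        omega

/-- The arithmetic of one period of three steps that avoids a residue class. -/
theorem arith (k r x0 x1 x2 x3 : ℕ) (hr : r < 3) (hk : 1 ≤ k)
    (c0 : x0 % 3 ≠ r) (c1 : x1 % 3 ≠ r) (c2 : x2 % 3 ≠ r)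
    (s1 : x1 = x0 + (3 * k + 1) ∨ x1 + (3 * k + 1) = x0)
    (s2 : x2 = x1 + (3 * k + 2) ∨ x2 + (3 * k + 2) = x1)
    (s3 : x3 = x2 + (3 * k + 3) ∨ x3 + (3 * k + 3) = x2) :
    (x0 % 3 = (r + 1) % 3 ∧ x3 % 3 = (r + 1) % 3 ∧
        x1 = x0 + (3 * k + 1) ∧ x2 = x0 + (6 * k + 3)) ∨
      (x0 % 3 = (r + 2) % 3 ∧ x3 % 3 = (r + 2) % 3 ∧ x3 + (k + 1) ≤ x0) := by
  have m3 : x3 % 3 = x2 % 3 := by rcases s3 with s3 | s3 <;> omega
  rcases s1 with s1 | s1 <;> rcases s2 with s2 | s2
  · left
    have m1 : x1 % 3 = (x0 + 1) % 3 := by omega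
    have m2 : x2 % 3 = x0 % 3 := by omega
    refine ⟨?_, ?_, s1, by omega⟩
    · interval_cases r <;> omega
    · interval_cases r <;> omega
  · exfalso
    have m1 : x1 % 3 = (x0 + 1) % 3 := by omega
    have m2 : x2 % 3 = (x0 + 2) % 3 := by omega
    interval_cases r <;> omega
  · exfalso
    have m1 : x1 % 3 = (x0 + 2) % 3 := by omega
    have m2 : x2 % 3 = (x0 + 1) % 3 := by omega
    interval_cases r <;> omega
  · right
    have m1 : x1 % 3 = (x0 + 2) % 3 := by omega
    have m2 : x2 % 3 = x0 % 3 := by omega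
    refine ⟨?_, ?_, ?_⟩
    · interval_cases r <;> omega
    · interval_cases r <;> omega
    · rcases s3 with s3 | s3 <;> omega

/-- Every residue class modulo three is hit at arbitrarily late times. -/
theorem hit (a : ℕ → ℕ)
    (h : ∀ n : ℕ, a (n + 1) =
      if n + 1 < a n ∧ a n - (n + 1) ∉ Finset.image a (Finset.range (n + 1))
      then a n - (n + 1) else a n + (n + 1)) (r : ℕ) (hr : r < 3) (N : ℕ) :
    ∃ n, N ≤ n ∧ a n % 3 = r := by
  by_contra hcon
  push Not at hcon
  -- one period
  have hper : ∀ k, N + 1 ≤ k →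
      (a (3 * k) % 3 = (r + 1) % 3 ∧ a (3 * k + 3) % 3 = (r + 1) % 3 ∧
        a (3 * k + 1) = a (3 * k) + (3 * k + 1) ∧ a (3 * k + 2) = a (3 * k) + (6 * k + 3)) ∨
      (a (3 * k) % 3 = (r + 2) % 3 ∧ a (3 * k + 3) % 3 = (r + 2) % 3 ∧
        a (3 * k + 3) + (k + 1) ≤ a (3 * k)) := by
    intro k hk
    have c0 := hcon (3 * k) (by omega)
    have c1 := hcon (3 * k + 1) (by omega)
    have c2 := hcon (3 * k + 2) (by omega)
    have s1 : a (3 * k + 1) = a (3 * k) + (3 * k + 1) ∨
        a (3 * k + 1) + (3 * k + 1) = a (3 * k) := by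
      rcases step a h (3 * k) with h1 | ⟨_, h2, _⟩
      · left; exact h1
      · right; exact h2
    have s2 : a (3 * k + 2) = a (3 * k + 1) + (3 * k + 2) ∨
        a (3 * k + 2) + (3 * k + 2) = a (3 * k + 1) := by
      rcases step a h (3 * k + 1) with h1 | ⟨_, h2, _⟩
      · left; exact h1
      · right; exact h2
    have s3 : a (3 * k + 3) = a (3 * k + 2) + (3 * k + 3) ∨
        a (3 * k + 3) + (3 * k + 3) = a (3 * k + 2) := by
      rcases step a h (3 * k + 2) with h1 | ⟨_, h2, _⟩
      · left; exact h1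
      · right; exact h2
    exact arith k r _ _ _ _ hr (by omega) c0 c1 c2 s1 s2 s3
  rcases hper (N + 1) le_rfl with h0 | h0
  · -- always up
    have hall : ∀ d, a (3 * (N + 1 + d)) % 3 = (r + 1) % 3 := by
      intro d
      induction d with
      | zero => exact h0.1
      | succ d ih =>
        have e : 3 * (N + 1 + (d + 1)) = 3 * (N + 1 + d) + 3 := by ring
        rw [e]
        rcases hper (N + 1 + d) (by omega) with h1 | h1
        · exact h1.2.1
        · omega
    refine noUp a h (N + 1) (by omega) ?_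
    intro k hk
    obtain ⟨d, rfl⟩ := Nat.exists_eq_add_of_le hk
    have h2 := hall d
    rcases hper (N + 1 + d) (by omega) with h1 | h1
    · exact h1.2.2
    · omega
  · -- always down
    have hall : ∀ d, a (3 * (N + 1 + d)) % 3 = (r + 2) % 3 := by
      intro d
      induction d with
      | zero => exact h0.1
      | succ d ih =>
        have e : 3 * (N + 1 + (d + 1)) = 3 * (N + 1 + d) + 3 := by ring
        rw [e]
        rcases hper (N + 1 + d) (by omega) with h1 | h1
        · omega
        · exact h1.2.1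
    refine noDown a (N + 1) ?_
    intro k hk
    obtain ⟨d, rfl⟩ := Nat.exists_eq_add_of_le hk
    have h2 := hall d
    rcases hper (N + 1 + d) (by omega) with h1 | h1
    · omega
    · exact h1.2.2

/-- The Recaman sequence (defined as in the problem) takes infinitely many values in every
residue class modulo 3. -/
theorem result :
    ∀ a : ℕ → ℕ, a 0 = 0 →
      (∀ n : ℕ, a (n + 1) =
        if n + 1 < a n ∧ a n - (n + 1) ∉ Finset.image a (Finset.range (n + 1))
        then a n - (n + 1) else a n + (n + 1)) →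
      ∀ r : ℕ, r < 3 → {m : ℕ | m % 3 = r ∧ ∃ k : ℕ, a k = m}.Infinite := by
  intro a _ h r hr hfin
  obtain ⟨V, hV⟩ := hfin.bddAbove
  have hV' : ∀ n, a n % 3 = r → a n ≤ V := fun n hn => hV ⟨hn, n, rfl⟩
  have hT : {n : ℕ | V < n ∧ a n % 3 = r}.Infinite := by
    rw [Set.infinite_iff_exists_gt]
    intro N
    obtain ⟨n, hn, hnr⟩ := hit a h r hr (N + V + 1)
    exact ⟨n, ⟨by omega, hnr⟩, by omega⟩
  refine Set.infinite_of_injOn_mapsTo (s := {n : ℕ | V < n ∧ a n % 3 = r}) (t := Set.Iic V)
    (f := a) ?_ ?_ hT (Set.finite_Iic V)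
  · have key : ∀ m n, m < n → V < n → a n % 3 = r → a m ≠ a n := by
      intro m n hmn hVn hnr
      obtain ⟨n, rfl⟩ : ∃ n', n = n' + 1 := ⟨n - 1, by omega⟩
      have hle := hV' _ hnr
      rcases step a h n with h1 | ⟨_, _, h3⟩
      · omega
      · exact h3 m (by omega)
    intro m hm n hn hmn
    rcases lt_trichotomy m n with hlt | heq | hgt
    · exact absurd hmn (key m n hlt hn.1 hn.2)
    · exact heq
    · exact absurd hmn.symm (key n m hgt hm.1 hm.2)
  · intro n hn
    exact hV' n hn.2

end Pool.Agent.Results.MP_a2345a_nt.ModThree
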