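import Pool.Agent.H22.Rec.Growth

set_option autoImplicit false

/-!
Growth of the Recaman sequence: `a_n ≤ (1/11 + ε) n² + C`, and at least `(4/3) √x - C` of the
integers in `[0, x]` are terms.
-/

namespace Pool.Agent.Results.MP_a2345a_nt.QuadraticGrowth

theorem result (a : ℕ → ℕ) (h0 : a 0 = 0)
    (h : ∀ n : ℕ, a (n + 1) =
      if n + 1 < a n ∧ a n - (n + 1) ∉ Finset.image a (Finset.range (n + 1))
      then a n - (n + 1) else a n + (n + 1)) :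
    (∀ ε : ℝ, 0 < ε → ∃ C : ℝ, ∀ n : ℕ, (a n : ℝ) ≤ (1 / 11 + ε) * (n : ℝ) ^ 2 + C) ∧
    ∃ C : ℝ, ∀ x : ℕ,
      4 / 3 * √(x : ℝ) - C ≤ ({v : ℕ | v ≤ x ∧ ∃ n : ℕ, a n = v}.ncard : ℝ) := by
  refine ⟨fun ε hε => ?_, Pool.Agent.H22.Rec.attained ⟨h0, h⟩⟩
  obtain ⟨C, hC⟩ := Pool.Agent.H22.Rec.main (a := a) ⟨h0, h⟩ hε
  exact ⟨C, fun n => (hC n).1⟩

end Pool.Agent.Results.MP_a2345a_nt.QuadraticGrowth
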