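import Pool.Agent.H22.Rec.Growth

set_option autoImplicit false

/-!
At least `(9/22 - ε) n - C` of the first `n` steps of the Recaman sequence are subtractions; hence
`a_0, .., a_n` take at least `(9/22 - ε) n - C` different values.
-/

namespace Pool.Agent.Results.MP_a2345a_nt.SubtractionDensity

theorem result (a : ℕ → ℕ) (h0 : a 0 = 0)
    (h : ∀ n : ℕ, a (n + 1) =
      if n + 1 < a n ∧ a n - (n + 1) ∉ Finset.image a (Finset.range (n + 1))
      then a n - (n + 1) else a n + (n + 1)) (ε : ℝ) (hε : 0 < ε) :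
    ∃ C : ℝ, ∀ n : ℕ,
      (9 / 22 - ε) * n - C ≤
        (((Finset.range n).filter fun i => a (i + 1) < a i).card : ℝ) ∧
      (9 / 22 - ε) * n - C ≤ (((Finset.range (n + 1)).image a).card : ℝ) := by
  obtain ⟨C, hC⟩ := Pool.Agent.H22.Rec.main (a := a) ⟨h0, h⟩ hε
  exact ⟨C, fun n => (hC n).2⟩

end Pool.Agent.Results.MP_a2345a_nt.SubtractionDensity
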